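import Pool.Agent.Y993.HP.Stm

/-!
# Project HP: ties are unlikely, and the transfer from labels to uniform permutations
-/

set_option autoImplicit false

namespace Pool.Agent.Y945.HP

open Finset Pool.Agent.Y993.HP

open Classical in
theorem Pr_eq {Ω : Type} [Fintype Ω] (E : Ω → Prop) :
    Pr E = ((univ.filter E).card : ℝ) / (Fintype.card Ω : ℝ) := by
  unfold Pr Ex
  rw [Finset.sum_boole]

theorem IsCh_congr {d n N N' : ℕ} (u : Lab d n N) (v : Lab d n N')
    (h : ∀ i x y, u (i, x) < u (i, y) ↔ v (i, x) < v (i, y)) (C : Finset (Pt d n)) :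
    IsCh u C ↔ IsCh v C := by
  simp only [IsCh, h]

theorem lg_congr {d n N N' : ℕ} (u : Lab d n N) (v : Lab d n N')
    (h : ∀ i x y, u (i, x) < u (i, y) ↔ v (i, x) < v (i, y)) (X : Finset (Pt d n)) :
    lg u X = lg v X := by
  classical
  unfold lg
  congr 1
  apply Finset.filter_congr
  intro C _
  exact IsCh_congr u v h C

/-- the order of an injective function is the order of a permutation -/
theorem rank_perm {n N : ℕ} (f : Fin n → Fin N) (hf : Function.Injective f) :
    ∃ ρ : Equiv.Perm (Fin n), ∀ x y, f x < f y ↔ ρ x < ρ y := by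
  have h1 : StrictMono (f ∘ Tuple.sort f) :=
    (Tuple.monotone_sort f).strictMono_of_injective (hf.comp (Tuple.sort f).injective)
  refine ⟨(Tuple.sort f)⁻¹, fun x y => ?_⟩
  have h2 := h1.lt_iff_lt (a := (Tuple.sort f)⁻¹ x) (b := (Tuple.sort f)⁻¹ y)
  rw [← h2]
  simp

open Classical in
theorem card_tie {d n N : ℕ} (i : Fin d) {x y : Fin n} (hxy : x ≠ y) :
    (univ.filter (fun u : Lab d n N => u (i, x) = u (i, y))).card * N ≤
      Fintype.card (Lab d n N) := by
  have h1 : ((univ.filter (fun u : Lab d n N => u (i, x) = u (i, y))) ×ˢ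
      (univ : Finset (Fin N))).card ≤ (univ : Finset (Lab d n N)).card := by
    apply Finset.card_le_card_of_injOn (fun z => Function.update z.1 (i, x) z.2)
    · intro z _; simp
    · rintro ⟨u, a⟩ hu ⟨v, b⟩ hv h
      have hne : (i, y) ≠ (i, x) := by
        intro h; exact hxy (congrArg Prod.snd h).symm
      have hu' : u (i, x) = u (i, y) := by simpa using hu
      have hv' : v (i, x) = v (i, y) := by simpa using hv
      have h' : Function.update u (i, x) a = Function.update v (i, x) b := h
      have hab : a = b := by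
        have := congrFun h' (i, x)
        simpa using this
      have hz : ∀ z, z ≠ (i, x) → u z = v z := by
        intro z hz
        have := congrFun h' z
        simpa [Function.update_of_ne hz] using this
      have huv : u = v := by
        funext z
        by_cases hzx : z = (i, x)
        · rw [hzx, hu', hv', hz _ hne]
        · exact hz z hzx
      rw [hab, huv]
  rw [Finset.card_product, Finset.card_univ, Finset.card_univ, Fintype.card_fin] at h1
  exact h1

open Classical in
theorem card_noTie {d n N : ℕ} :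
    (univ.filter (fun u : Lab d n N => ¬ NoTie u)).card * N ≤
      d * n ^ 2 * Fintype.card (Lab d n N) := by
  have hsub : univ.filter (fun u : Lab d n N => ¬ NoTie u) ⊆
      (univ : Finset (Fin d × {z : Fin n × Fin n // z.1 ≠ z.2})).biUnion
        (fun w => univ.filter (fun u : Lab d n N => u (w.1, w.2.1.1) = u (w.1, w.2.1.2))) := by
    intro u hu
    rw [Finset.mem_filter] at hu
    have h1 := hu.2
    unfold NoTie at h1
    push Not at h1
    obtain ⟨i, hi⟩ := h1
    unfold Function.Injective at hi
    push Not at hi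
    obtain ⟨x, y, hxy, hne⟩ := hi
    rw [Finset.mem_biUnion]
    exact ⟨(i, ⟨(x, y), hne⟩), Finset.mem_univ _, by simpa using hxy⟩
  have h2 : (univ.filter (fun u : Lab d n N => ¬ NoTie u)).card ≤
      ∑ w : Fin d × {z : Fin n × Fin n // z.1 ≠ z.2},
        (univ.filter (fun u : Lab d n N => u (w.1, w.2.1.1) = u (w.1, w.2.1.2))).card :=
    (Finset.card_le_card hsub).trans Finset.card_biUnion_le
  calc (univ.filter (fun u : Lab d n N => ¬ NoTie u)).card * N
      ≤ (∑ w : Fin d × {z : Fin n × Fin n // z.1 ≠ z.2},
        (univ.filter (fun u : Lab d n N => u (w.1, w.2.1.1) = u (w.1, w.2.1.2))).card) * N :=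
        Nat.mul_le_mul_right _ h2
    _ = ∑ w : Fin d × {z : Fin n × Fin n // z.1 ≠ z.2},
        (univ.filter (fun u : Lab d n N => u (w.1, w.2.1.1) = u (w.1, w.2.1.2))).card * N :=
        Finset.sum_mul _ _ _
    _ ≤ ∑ _w : Fin d × {z : Fin n × Fin n // z.1 ≠ z.2}, Fintype.card (Lab d n N) :=
        Finset.sum_le_sum (fun w _ => card_tie w.1 w.2.2)
    _ = Fintype.card (Fin d × {z : Fin n × Fin n // z.1 ≠ z.2}) * Fintype.card (Lab d n N) := by
        rw [Finset.sum_const, Finset.card_univ, smul_eq_mul]
    _ ≤ d * n ^ 2 * Fintype.card (Lab d n N) := by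
        apply Nat.mul_le_mul_right
        rw [Fintype.card_prod, Fintype.card_fin]
        apply Nat.mul_le_mul_left
        refine (Fintype.card_subtype_le _).trans ?_
        simp [Fintype.card_prod, sq]

/-- HP-TIE -/
theorem tie : S_TIE := by
  classical
  intro d n N hN
  rw [Pr_eq]
  have : Nonempty (Fin N) := ⟨⟨0, hN⟩⟩
  have hL : (0 : ℝ) < (Fintype.card (Lab d n N) : ℝ) := by
    exact_mod_cast Fintype.card_pos
  have hN' : (0 : ℝ) < (N : ℝ) := by exact_mod_cast hN
  rw [div_le_div_iff₀ hL hN']
  have h : ((univ.filter (fun u : Lab d n N => ¬ NoTie u)).card : ℝ) * N ≤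
      d * n ^ 2 * Fintype.card (Lab d n N) := by
    exact_mod_cast card_noTie (d := d) (n := n) (N := N)
  refine le_of_eq_of_le ?_ h
  congr!

/-- relabelling -/
def rel {d n : ℕ} (s : Fin d → Equiv.Perm (Fin n)) : Equiv.Perm (Fin d × Fin n) where
  toFun z := (z.1, s z.1 z.2)
  invFun z := (z.1, (s z.1).symm z.2)
  left_inv z := by simp
  right_inv z := by simp

open Classical in
/-- the key count -/
theorem key {d n N : ℕ} (A : Finset (Pt d n)) (E : ℕ → Prop) :
    (univ.filter (fun u : Lab d n N => NoTie u)).card *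
      (univ.filter (fun s : Fin d → Equiv.Perm (Fin n) =>
        E (lg (fun x : Fin d × Fin n => s x.1 x.2) A))).card ≤
    Fintype.card (Fin d → Equiv.Perm (Fin n)) *
      (univ.filter (fun u : Lab d n N => E (lg u A))).card := by
  have h1 : ∀ s : Fin d → Equiv.Perm (Fin n),
      (univ.filter (fun u : Lab d n N => E (lg (fun z => u (rel s z)) A))).card =
      (univ.filter (fun u : Lab d n N => E (lg u A))).card := by
    intro s
    have := Finset.card_filter (fun u : Lab d n N => E (lg (fun z => u (rel s z)) A)) univ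
    rw [this, Finset.card_filter]
    exact Equiv.sum_comp (Equiv.arrowCongr (rel s).symm (Equiv.refl (Fin N)))
      (fun u : Lab d n N => if E (lg u A) then 1 else 0)
  have h2 : ∀ u : Lab d n N, NoTie u →
      (univ.filter (fun s : Fin d → Equiv.Perm (Fin n) =>
        E (lg (fun z => u (rel s z)) A))).card =
      (univ.filter (fun s : Fin d → Equiv.Perm (Fin n) =>
        E (lg (fun x : Fin d × Fin n => s x.1 x.2) A))).card := by
    intro u hu
    choose ρ hρ using fun i => rank_perm (fun x => u (i, x)) (hu i)
    have h3 : ∀ s : Fin d → Equiv.Perm (Fin n), lg (fun z => u (rel s z)) A =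
        lg (fun x : Fin d × Fin n => (ρ * s) x.1 x.2) A := by
      intro s
      apply lg_congr
      intro i x y
      exact hρ i (s i x) (s i y)
    simp only [h3]
    rw [Finset.card_filter, Finset.card_filter]
    exact Equiv.sum_comp (Equiv.mulLeft ρ)
      (fun s : Fin d → Equiv.Perm (Fin n) =>
        if E (lg (fun x : Fin d × Fin n => s x.1 x.2) A) then 1 else 0)
  calc (univ.filter (fun u : Lab d n N => NoTie u)).card *
      (univ.filter (fun s : Fin d → Equiv.Perm (Fin n) =>
        E (lg (fun x : Fin d × Fin n => s x.1 x.2) A))).card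
      = ∑ u ∈ univ.filter (fun u : Lab d n N => NoTie u),
        (univ.filter (fun s : Fin d → Equiv.Perm (Fin n) =>
          E (lg (fun z => u (rel s z)) A))).card := by
        rw [Finset.sum_congr rfl (fun u hu => h2 u (Finset.mem_filter.1 hu).2),
          Finset.sum_const, smul_eq_mul]
    _ ≤ ∑ u : Lab d n N, (univ.filter (fun s : Fin d → Equiv.Perm (Fin n) =>
          E (lg (fun z => u (rel s z)) A))).card :=
        Finset.sum_le_sum_of_subset (Finset.filter_subset _ _)
    _ = ∑ s : Fin d → Equiv.Perm (Fin n),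
        (univ.filter (fun u : Lab d n N => E (lg (fun z => u (rel s z)) A))).card := by
        simp only [Finset.card_filter]
        exact Finset.sum_comm
    _ = Fintype.card (Fin d → Equiv.Perm (Fin n)) *
      (univ.filter (fun u : Lab d n N => E (lg u A))).card := by
        rw [Finset.sum_congr rfl (fun s _ => h1 s), Finset.sum_const, smul_eq_mul,
          Finset.card_univ]

/-- HP-TR -/
theorem tr : S_TR := by
  classical
  intro d n N A E hn hdn hN
  rw [Pr_eq, Pr_eq]
  have : Nonempty (Fin N) := ⟨⟨0, hN⟩⟩
  have hL : (0 : ℝ) < (Fintype.card (Lab d n N) : ℝ) := by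
    exact_mod_cast Fintype.card_pos
  have hS : (0 : ℝ) < (Fintype.card (Fin d → Equiv.Perm (Fin n)) : ℝ) := by
    exact_mod_cast Fintype.card_pos
  have hN' : (0 : ℝ) < (N : ℝ) := by exact_mod_cast hN
  have hkey := key (N := N) A E
  have htie := card_noTie (d := d) (n := n) (N := N)
  have hsplit := Finset.card_filter_add_card_filter_not (s := (univ : Finset (Lab d n N)))
    (fun u => NoTie u)
  rw [Finset.card_univ] at hsplit
  generalize (univ.filter (fun u : Lab d n N => NoTie u)).card = a at *
  generalize (univ.filter (fun u : Lab d n N => ¬ NoTie u)).card = b at *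
  generalize (univ.filter (fun s : Fin d → Equiv.Perm (Fin n) =>
        E (lg (fun x : Fin d × Fin n => s x.1 x.2) A))).card = c at *
  generalize (univ.filter (fun u : Lab d n N => E (lg u A))).card = e at *
  generalize Fintype.card (Lab d n N) = l at *
  generalize Fintype.card (Fin d → Equiv.Perm (Fin n)) = t at *
  have h1 : (2 * b) * N ≤ l * N := by
    calc (2 * b) * N = 2 * (b * N) := by ring
      _ ≤ 2 * (d * n ^ 2 * l) := Nat.mul_le_mul_left _ htie
      _ = (2 * d * n ^ 2) * l := by ring
      _ ≤ N * l := Nat.mul_le_mul_right _ hdn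
      _ = l * N := by ring
  have h2 : 2 * b ≤ l := Nat.le_of_mul_le_mul_right h1 hN
  have h3 : l ≤ 2 * a := by omega
  have h4 : c * l ≤ 2 * e * t := by
    calc c * l ≤ c * (2 * a) := Nat.mul_le_mul_left _ h3
      _ = 2 * (a * c) := by ring
      _ ≤ 2 * (t * e) := Nat.mul_le_mul_left _ hkey
      _ = 2 * e * t := by ring
  rw [← mul_div_assoc, div_le_div_iff₀ hS hL]
  exact_mod_cast h4

end Pool.Agent.Y945.HP
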